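import Pool.Agent.H322Z.TM.Main

set_option autoImplicit false

/-!
# The Thue–Morse sequence along a polynomial of degree at least 3 has maximal subword complexity
-/

namespace Pool.Agent.Results.MP_b1aeef_nt.AMaximal

/-- The Thue–Morse sequence: the sum of the binary digits of `n`, modulo `2`. -/
def thueMorse (n : ℕ) : Fin 2 := ⟨(Nat.digits 2 n).sum % 2, Nat.mod_lt _ (by norm_num)⟩

/-- The subword complexity `p_u(k)`: the number of distinct words `u(m) u(m+1) ⋯ u(m+k-1)`,
`m ≥ 0`, of length `k` that occur in the binary sequence `u`. -/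
noncomputable def complexity (u : ℕ → Fin 2) (k : ℕ) : ℕ :=
  Set.ncard {w : Fin k → Fin 2 | ∃ m : ℕ, ∀ i : Fin k, w i = u (m + (i : ℕ))}

/-- For every integer polynomial `P` of degree at least `3` with `P(n) ≥ 0` for all `n ≥ 0`, the
sequence `t(P(n))` has subword complexity `2 ^ k` for every `k ≥ 1`. -/
theorem result (P : Polynomial ℤ) (hd : 3 ≤ P.natDegree)
    (hP : ∀ n : ℕ, 0 ≤ P.eval (n : ℤ)) (k : ℕ) (_hk : 1 ≤ k) :
    complexity (fun n : ℕ => thueMorse (P.eval (n : ℤ)).toNat) k = 2 ^ k := by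
  have h1 : {w : Fin k → Fin 2 | ∃ m : ℕ, ∀ i : Fin k,
      w i = thueMorse (P.eval ((m + (i : ℕ) : ℕ) : ℤ)).toNat} = Set.univ := by
    ext w
    simp only [Set.mem_setOf_eq, Set.mem_univ, iff_true]
    obtain ⟨m, hm⟩ := Pool.Agent.H322Z.TM.int_main P (by omega) hP k
      (fun i => (((w i : Fin 2) : ℕ) : ZMod 2))
    refine ⟨m, fun i => Fin.ext ?_⟩
    have h2 := hm i
    unfold Pool.Agent.H322Z.TM.t at h2
    rw [ZMod.natCast_eq_natCast_iff'] at h2
    have h3 := (w i).isLt
    simp only [thueMorse]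
    omega
  unfold complexity
  rw [h1, Set.ncard_univ]
  simp

end Pool.Agent.Results.MP_b1aeef_nt.AMaximal
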